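import Pool.Agent.N783.PF.Lat

/-!
# Project PF (helper783): good polynomials have a discriminant without square factors

Leaves IRR, GEN and SQF (helper667), after `N7/PQ/Sqf.lean` (helper7): the polynomials of the family
are irreducible, the field `F[X] / (f)`, and `sqf : S_NBR → S_LB → S_DSC → S_GEN → S_SQF`. Suppose
that the discriminant of the polynomial `f` of the family is in `𝔭 ^ 2`. Then `f` is weakly
divisible by `𝔭 ^ 2`, the neighbour of `𝓞 F [θ]` at `𝔭` is a unimodular lattice which contains `𝔭`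
and in which all elements of `𝓞 F` are in `𝔭`; so it is distinguished modulo the primes `𝔮 q` and
its elements in `𝓞 F` are large, and `f` is bad.
-/

set_option autoImplicit false
set_option linter.all false

open Polynomial IsDedekindDomain Matrix NumberField
open scoped Classical

namespace Pool.Agent.N667.PF

open Pool.Agent.N783.PF
open Pool.Agent.N352.PJ (Mt Typ dd)

section

variable {F : Type} [Field F] [NumberField F]

/-- Congruent polynomials have the same reduction. -/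
theorem rd_eq_of_cg {𝔭 : Ideal (𝓞 F)} {f f' : (𝓞 F)[X]} (h : Cg 𝔭 f f') : rd 𝔭 f = rd 𝔭 f' := by
  ext j
  rw [rd, rd, coeff_map, coeff_map, Ideal.Quotient.eq]
  exact h j

theorem cg_mono {𝔞 𝔟 : Ideal (𝓞 F)} (hab : 𝔞 ≤ 𝔟) {f f' : (𝓞 F)[X]} (h : Cg 𝔞 f f') :
    Cg 𝔟 f f' := fun j => hab (h j)

theorem sp_le {q : ℕ} {𝔭 : Ideal (𝓞 F)} (h : (q : 𝓞 F) ∈ 𝔭) : sp F q ≤ 𝔭 :=
  (Ideal.span_singleton_le_iff_mem _).2 h

theorem two_mem {W : ℕ} (h2 : 2 ∣ W) {𝔭 : Ideal (𝓞 F)} (h : (2 : 𝓞 F) ∈ 𝔭) : (W : 𝓞 F) ∈ 𝔭 := by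
  obtain ⟨k, rfl⟩ := h2
  push_cast
  exact Ideal.mul_mem_right _ _ h

/-- There is a prime over `2`. -/
theorem exists_two (F : Type) [Field F] [NumberField F] :
    ∃ 𝔭 : Ideal (𝓞 F), 𝔭.IsPrime ∧ (2 : 𝓞 F) ∈ 𝔭 := by
  have h2 : ¬ IsUnit (2 : 𝓞 F) := by
    intro h
    have hint : (algebraMap ℤ (𝓞 F)).IsIntegral := algebraMap_isIntegral_iff.2 inferInstance
    have hinj : Function.Injective (algebraMap ℤ (𝓞 F)) := FaithfulSMul.algebraMap_injective ℤ (𝓞 F)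
    have hloc := hint.isLocalHom hinj
    have h3 : IsUnit (algebraMap ℤ (𝓞 F) 2) := by
      rw [map_ofNat]
      exact h
    have h4 := (isUnit_map_iff (algebraMap ℤ (𝓞 F)) 2).1 h3
    rw [Int.isUnit_iff] at h4
    omega
  obtain ⟨𝔭, h𝔭, hle⟩ := Ideal.exists_le_maximal (Ideal.span {(2 : 𝓞 F)}) (by
    rw [Ne, Ideal.span_singleton_eq_top]
    exact h2)
  exact ⟨𝔭, h𝔭.isPrime, hle (Ideal.mem_span_singleton_self _)⟩

end

theorem irr : S_IRR := by
  intro F _ _ g W f₁ f hG hc hm hd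
  obtain ⟨𝔭, hp, h2⟩ := exists_two F
  have h3 : rd 𝔭 f = rd 𝔭 f₁ := rd_eq_of_cg (cg_mono (sp_le (two_mem hG.two h2)) hc)
  have h4 := hG.irr 𝔭 hp h2
  rw [← h3] at h4
  have h5 : Irreducible f := Monic.irreducible_of_irreducible_map (Ideal.Quotient.mk 𝔭) f hm h4
  exact (hm.irreducible_iff_irreducible_map_fraction_map (K := F)).1 h5

theorem gen : S_GEN := by
  intro F _ _ g f hm hd hirr
  haveI : Fact (Irreducible (fF f)) := ⟨hirr⟩
  have hm' : (fF f).Monic := hm.map _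
  have hd' : (fF f).natDegree = 2 * g + 1 := by rw [hm.natDegree_map, hd]
  haveI : FiniteDimensional F (AdjoinRoot (fF f)) := hm'.finite_adjoinRoot
  haveI : CharZero (AdjoinRoot (fF f)) :=
    charZero_of_injective_algebraMap (R := F) (algebraMap F _).injective
  haveI : FiniteDimensional ℚ (AdjoinRoot (fF f)) := FiniteDimensional.trans ℚ F _
  haveI : NumberField (AdjoinRoot (fF f)) := { }
  refine ⟨AdjoinRoot (fF f), inferInstance, inferInstance, inferInstance,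
    AdjoinRoot.root (fF f), ?_⟩
  refine ⟨hm, hd, ?_, ?_, ?_⟩
  · rw [aeval_def]
    exact AdjoinRoot.eval₂_root (fF f)
  · have h1 := (AdjoinRoot.powerBasis hm'.ne_zero).finrank
    rw [AdjoinRoot.powerBasis_dim, hd'] at h1
    exact h1
  · intro x
    obtain ⟨p, rfl⟩ := AdjoinRoot.mk_surjective x
    have h1 : AdjoinRoot.mk (fF f) p = AdjoinRoot.mk (fF f) (p %ₘ fF f) := by
      rw [AdjoinRoot.mk_eq_mk, modByMonic_eq_sub_mul_div p (fF f)]
      rw [sub_sub_cancel]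
      exact dvd_mul_right _ _
    have hlt : (p %ₘ fF f).natDegree < 2 * g + 1 := by
      rw [← hd']
      exact natDegree_modByMonic_lt p hm' (by
        intro h
        rw [h] at hd'
        simp at hd')
    refine ⟨fun i => (p %ₘ fF f).coeff i, ?_⟩
    rw [h1]
    conv_lhs => rw [(p %ₘ fF f).as_sum_range_C_mul_X_pow' hlt]
    rw [map_sum, Finset.sum_range]
    refine Finset.sum_congr rfl fun i _ => ?_
    rw [map_mul, map_pow, AdjoinRoot.mk_X, AdjoinRoot.mk_C]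
    rfl

theorem top_pow {F L : Type} [Field F] [NumberField F] [Field L] [NumberField L] [Algebra F L]
    {g : ℕ} {f : (𝓞 F)[X]} {θ : L} (hG : IsGen g f θ) {m : ℕ} (hm : m ≤ 2 * g) :
    hG.top (θ ^ m) = if m = 2 * g then 1 else 0 := by
  have h1 : θ ^ m = hG.basis ⟨m, by omega⟩ := (hG.basis_apply ⟨m, by omega⟩).symm
  rw [h1, IsGen.top, Module.Basis.coord_apply, Module.Basis.repr_self, Finsupp.single_apply]
  congr 1
  rw [eq_iff_iff, Fin.ext_iff]
  rfl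

/-- Irreducible polynomials over a residue field are separable. -/
theorem sep_irr {F : Type} [Field F] [NumberField F] {𝔭 : Ideal (𝓞 F)} (hp : 𝔭.IsPrime)
    (h0 : 𝔭 ≠ ⊥) {p : (𝓞 F ⧸ 𝔭)[X]} (hi : Irreducible p) : p.Separable := by
  haveI hmax : 𝔭.IsMaximal := hp.isMaximal h0
  letI : Field (𝓞 F ⧸ 𝔭) := Ideal.Quotient.field 𝔭
  haveI : Finite (𝓞 F ⧸ 𝔭) := Ideal.finiteQuotientOfFreeOfNeBot 𝔭 h0
  exact PerfectField.separable_of_irreducible hi

/-- The polynomial `X * h` is separable. -/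
theorem sep_mul {F : Type} [Field F] [NumberField F] {𝔭 : Ideal (𝓞 F)} (hp : 𝔭.IsPrime)
    (h0 : 𝔭 ≠ ⊥) {g : ℕ} (hg : 1 ≤ g) {h : (𝓞 F)[X]} (hm : h.Monic) (hd : h.natDegree = 2 * g)
    (hi : Irreducible (rd 𝔭 h)) : (rd 𝔭 (X * h)).Separable := by
  haveI hmax : 𝔭.IsMaximal := hp.isMaximal h0
  have hs := sep_irr hp h0 hi
  have e : rd 𝔭 (X * h) = X * rd 𝔭 h := by
    rw [rd, Polynomial.map_mul, map_X]
  rw [e]
  letI : Field (𝓞 F ⧸ 𝔭) := Ideal.Quotient.field 𝔭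
  refine separable_X.mul hs ?_
  rw [irreducible_X.coprime_iff_not_dvd]
  intro hdv
  have h1 : Associated (X : (𝓞 F ⧸ 𝔭)[X]) (rd 𝔭 h) := irreducible_X.associated_of_dvd hi hdv
  have h2 := natDegree_eq_of_degree_eq (degree_eq_degree_of_associated h1)
  rw [natDegree_X, rd, hm.natDegree_map, hd] at h2
  omega

theorem sqf (h1 : S_NBR) (h2 : S_LB) (h3 : S_DSC) (h4 : S_GEN) : S_SQF := by
  intro g F _ _ hg
  obtain ⟨κ, hκ⟩ := h2 g F hg
  refine ⟨κ, ?_⟩
  intro B N W f₁ S 𝔮 h P f hκW hGF hGS hF hirr hBN hB hnb 𝔭 hp h0 hdsc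
  have hmax : 𝔭.IsMaximal := hp.isMaximal h0
  have hdsc1 : dsc g f ∈ 𝔭 := Ideal.pow_le_self two_ne_zero hdsc
  have h2p : (2 : 𝓞 F) ∉ 𝔭 := by
    intro h2p
    have hW := two_mem hGF.two h2p
    exact h3 F g 𝔭 f f₁ hg hp h0 hF.ht.mon hF.ht.deg (cg_mono (sp_le hW) hF.one)
      (hGF.sep 𝔭 hp hW) hdsc1
  have hqp : ∀ q ∈ S, (q : 𝓞 F) ∉ 𝔭 := by
    intro q hq hqp
    obtain ⟨-, -, -, -, -, hqP, hqm, hmon, hdeg, hi, -, -, -, hcg, hoth⟩ := hGS q hq
    refine h3 F g 𝔭 f (P q) hg hp h0 hF.ht.mon hF.ht.deg (cg_mono (sp_le hqp) (hF.con q hq)) ?_ hdsc1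
    by_cases he : 𝔭 = 𝔮 q
    · subst he
      rw [rd_eq_of_cg hcg]
      exact sep_mul hp h0 hg hmon hdeg hi
    · exact sep_irr hp h0 (hoth 𝔭 hp hqp he)
  obtain ⟨hBP, hweak⟩ := hF.wk 𝔭 hp h0 hdsc
  obtain ⟨L, _, _, _, θ, hG⟩ := h4 F g f hF.ht.mon hF.ht.deg hirr
  obtain ⟨Λ, hLat, hin, hI⟩ := h1 g F L f θ 𝔭 hg hp h0 h2p hG hweak
  apply hnb
  refine hκ L f θ B N W S 𝔮 h P hκW hGS hG hF.ht hBN hF.con 1 Λ one_ne_zero ?_ hLat ?_
    (Or.inr ⟨rfl, ?_⟩)
  · rw [map_one]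
    exact IsSquare.one
  · intro q hq
    obtain ⟨-, -, -, -, -, hqP, hqm, -, -, -, -, -, -, -, -⟩ := hGS q hq
    obtain ⟨s, hs, hs'⟩ : ∃ s ∈ 𝔭, s ∉ 𝔮 q := by
      by_contra hcon
      push Not at hcon
      have hle : 𝔭 ≤ 𝔮 q := hcon
      have he : 𝔭 = 𝔮 q := hmax.eq_of_le hqP.ne_top hle
      exact hqp q hq (he ▸ hqm)
    refine ⟨algebraMap F L (s : F), hin s hs, s, hs', fun m hm => ⟨0, (𝔮 q).zero_mem, ?_⟩⟩
    have e1 : θ ^ m * (algebraMap F L (s : F)) ^ 2 / 1 = ((s : F) ^ 2) • θ ^ m := by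
      rw [Algebra.smul_def, map_pow, div_one, mul_comm]
    rw [e1, map_smul, top_pow hG hm, smul_eq_mul]
    split_ifs <;> simp
  · intro j hj
    by_cases hj0 : j = 0
    · exact Or.inl hj0
    · right
      have hj' : j ∈ 𝔭 := hI j hj
      have hd : Ideal.absNorm 𝔭 ∣ Ideal.absNorm (Ideal.span {j}) :=
        Ideal.absNorm_dvd_absNorm_of_le ((Ideal.span_singleton_le_iff_mem _).2 hj')
      have hne : Ideal.absNorm (Ideal.span {j}) ≠ 0 := by
        rw [Ne, Ideal.absNorm_eq_zero_iff, Ideal.span_singleton_eq_bot]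
        exact hj0
      have hle := Nat.le_of_dvd (Nat.pos_of_ne_zero hne) hd
      exact hBP.trans (Nat.pow_le_pow_left hle 2)

end Pool.Agent.N667.PF
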